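import Pool.Agent.Helper77.SD.St

/-!
# Project SD (MP_93a5ff_an): module `NUM`
-/

set_option autoImplicit false

namespace Pool.Agent.Helper48.SD

open Pool.Agent.Helper77.SD

theorem hNUM : StNUM := by
  intro lam s h P k hlam hs hh hP hk
  set W : ℝ := 2 / lam * (s + 2 + 1 / lam) with hW
  have hW0 : 0 ≤ W := by positivity
  set C : ℝ := √W with hC
  have hC0 : 0 ≤ C := Real.sqrt_nonneg _
  have hC2 : C ^ 2 = W := Real.sq_sqrt hW0
  set ε : ℝ := min 1 (1 / (75 * (C + 1))) with hε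
  have hεpos : 0 < ε := lt_min one_pos (by positivity)
  have hε1 : ε ≤ 1 := min_le_left _ _
  have hεC : ε * C ≤ 1 / 75 := by
    have h1 : ε ≤ 1 / (75 * (C + 1)) := min_le_right _ _
    have h2 : ε * (75 * (C + 1)) ≤ 1 := by
      rwa [le_div_iff₀ (by positivity)] at h1
    nlinarith
  set K : ℝ := k ε with hK
  have hK0 : 0 ≤ K := hk ε
  set τ : ℝ := max 1 (max P (75 * K)) with hτ
  have hτ1 : 1 ≤ τ := le_max_left _ _
  have hτP : P ≤ τ := le_trans (le_max_left _ _) (le_max_right _ _)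
  have hτK : 75 * K ≤ τ := le_trans (le_max_right _ _) (le_max_right _ _)
  have hτ0 : 0 < τ := lt_of_lt_of_le one_pos hτ1
  set δ : ℝ := min (lam / 8) (min (1 / (2 * (h + 1) ^ 2)) (1 / (75 * τ * (C + h + 1) ^ 2))) with hδ
  have hδpos : 0 < δ := by
    refine lt_min (by positivity) (lt_min (by positivity) ?_)
    have : 0 < C + h + 1 := by linarith
    positivity
  have hδ1 : δ ≤ lam / 8 := min_le_left _ _
  have hδ2 : δ * (2 * (h + 1) ^ 2) ≤ 1 := by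
    have h1 : δ ≤ 1 / (2 * (h + 1) ^ 2) := le_trans (min_le_right _ _) (min_le_left _ _)
    rwa [le_div_iff₀ (by positivity)] at h1
  have hδ3 : δ * (75 * τ * (C + h + 1) ^ 2) ≤ 1 := by
    have h1 : δ ≤ 1 / (75 * τ * (C + h + 1) ^ 2) := le_trans (min_le_right _ _) (min_le_right _ _)
    have : 0 < C + h + 1 := by linarith
    rwa [le_div_iff₀ (by positivity)] at h1
  refine ⟨ε, τ, δ, hεpos, hτ1, hδpos, hδ1, ?_⟩
  intro X N Q Y hX hN hY h1 h2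
  have hY0 : 0 ≤ Y := by rw [hY]; positivity
  have hYle : Y ≤ τ * (h + 1) := by rw [hY]; nlinarith
  have hN2 : 0 ≤ N ^ 2 := sq_nonneg _
  have hτ2 : 1 ≤ τ ^ 2 := by nlinarith
  -- the energy inequality
  have e1 : ε * X * N ≤ lam / 4 * X ^ 2 + 1 / lam * N ^ 2 := by
    have a1 : ε * X * N ≤ X * N := by
      have : 0 ≤ X * N := mul_nonneg hX hN
      nlinarith
    have a2 : X * N ≤ lam / 4 * X ^ 2 + 1 / lam * N ^ 2 := by
      have e : lam / 4 * X ^ 2 + 1 / lam * N ^ 2 - X * N = (lam * X - 2 * N) ^ 2 / (4 * lam) := by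
        field_simp
        ring
      have : 0 ≤ (lam * X - 2 * N) ^ 2 / (4 * lam) := by positivity
      linarith
    linarith
  have e2 : δ * (X + Y * N) ^ 2 ≤ lam / 4 * X ^ 2 + τ ^ 2 * N ^ 2 := by
    have a1 : (X + Y * N) ^ 2 ≤ 2 * X ^ 2 + 2 * (Y * N) ^ 2 := by nlinarith [sq_nonneg (X - Y * N)]
    have a2 : δ * (X + Y * N) ^ 2 ≤ δ * (2 * X ^ 2 + 2 * (Y * N) ^ 2) :=
      mul_le_mul_of_nonneg_left a1 hδpos.le
    have a3 : δ * (2 * X ^ 2) ≤ lam / 4 * X ^ 2 := by nlinarith [sq_nonneg X]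
    have a4 : Y ^ 2 ≤ (τ * (h + 1)) ^ 2 := by
      exact pow_le_pow_left₀ hY0 hYle 2
    have a5 : δ * (2 * (Y * N) ^ 2) ≤ τ ^ 2 * N ^ 2 := by
      have b1 : δ * (2 * (Y * N) ^ 2) = 2 * δ * N ^ 2 * Y ^ 2 := by ring
      have b2 : 2 * δ * N ^ 2 * Y ^ 2 ≤ 2 * δ * N ^ 2 * (τ * (h + 1)) ^ 2 :=
        mul_le_mul_of_nonneg_left a4 (by positivity)
      have b3 : 2 * δ * N ^ 2 * (τ * (h + 1)) ^ 2 = (δ * (2 * (h + 1) ^ 2)) * (τ ^ 2 * N ^ 2) := by ring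
      have b4 : (δ * (2 * (h + 1) ^ 2)) * (τ ^ 2 * N ^ 2) ≤ 1 * (τ ^ 2 * N ^ 2) :=
        mul_le_mul_of_nonneg_right hδ2 (by positivity)
      linarith
    linarith
  have e3 : K * N ^ 2 ≤ τ ^ 2 * N ^ 2 := by
    apply mul_le_mul_of_nonneg_right _ hN2
    nlinarith
  have e4 : 1 / lam * N ^ 2 ≤ 1 / lam * (τ ^ 2 * N ^ 2) := by
    apply mul_le_mul_of_nonneg_left _ (by positivity)
    nlinarith
  have e5 : X ^ 2 ≤ (C * τ * N) ^ 2 := by
    have b1 : lam / 2 * X ^ 2 ≤ (s + 2 + 1 / lam) * (τ ^ 2 * N ^ 2) := by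
      have : (s + 2 + 1 / lam) * (τ ^ 2 * N ^ 2) = τ ^ 2 * s * N ^ 2 + 2 * (τ ^ 2 * N ^ 2) +
        1 / lam * (τ ^ 2 * N ^ 2) := by ring
      rw [this]
      linarith
    have b2 : (C * τ * N) ^ 2 = W * (τ ^ 2 * N ^ 2) := by rw [← hC2]; ring
    have b3 : X ^ 2 = 2 / lam * (lam / 2 * X ^ 2) := by field_simp
    rw [b2, b3, hW]
    have b4 := mul_le_mul_of_nonneg_left b1 (show 0 ≤ 2 / lam by positivity)
    calc 2 / lam * (lam / 2 * X ^ 2) ≤ 2 / lam * ((s + 2 + 1 / lam) * (τ ^ 2 * N ^ 2)) := b4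
      _ = 2 / lam * (s + 2 + 1 / lam) * (τ ^ 2 * N ^ 2) := by ring
  have e6 : X ≤ C * τ * N := by
    have : 0 ≤ C * τ * N := by positivity
    exact (sq_le_sq₀ hX this).1 e5
  -- the shift inequality
  have f1 : ε * X * N ≤ 1 / 75 * (τ * N ^ 2) := by
    have b1 : ε * X * N ≤ ε * (C * τ * N) * N :=
      mul_le_mul_of_nonneg_right (mul_le_mul_of_nonneg_left e6 hεpos.le) hN
    have b2 : ε * (C * τ * N) * N = (ε * C) * (τ * N ^ 2) := by ring
    have b3 : (ε * C) * (τ * N ^ 2) ≤ 1 / 75 * (τ * N ^ 2) :=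
      mul_le_mul_of_nonneg_right hεC (by positivity)
    linarith
  have f2 : K * N ^ 2 ≤ 1 / 75 * (τ * N ^ 2) := by nlinarith
  have f3 : δ * (X + Y * N) ^ 2 ≤ 1 / 75 * (τ * N ^ 2) := by
    have b0 : X + Y * N ≤ (C + h + 1) * τ * N := by
      have : Y * N ≤ τ * (h + 1) * N := mul_le_mul_of_nonneg_right hYle hN
      nlinarith
    have b1 : (X + Y * N) ^ 2 ≤ ((C + h + 1) * τ * N) ^ 2 :=
      pow_le_pow_left₀ (by positivity) b0 2
    have b2 : δ * (X + Y * N) ^ 2 ≤ δ * ((C + h + 1) * τ * N) ^ 2 :=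
      mul_le_mul_of_nonneg_left b1 hδpos.le
    have b3 : δ * ((C + h + 1) * τ * N) ^ 2 = 1 / 75 * (δ * (75 * τ * (C + h + 1) ^ 2)) * (τ * N ^ 2) := by
      ring
    have b4 : 1 / 75 * (δ * (75 * τ * (C + h + 1) ^ 2)) * (τ * N ^ 2) ≤ 1 / 75 * 1 * (τ * N ^ 2) :=
      mul_le_mul_of_nonneg_right (mul_le_mul_of_nonneg_left hδ3 (by norm_num)) (by positivity)
    linarith
  have g1 : τ * (25 * Q ^ 2) ≤ τ * N ^ 2 := by
    have : τ * (25 * Q ^ 2) = 25 * (τ * Q ^ 2) := by ring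
    rw [this]
    linarith
  exact le_of_mul_le_mul_left g1 hτ0

end Pool.Agent.Helper48.SD
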